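import Mathlib

/-!
# Project GL: sums over `a + b = n`
-/

set_option autoImplicit false

namespace Q52.GL

open Finset

/-- a symmetric sum over the representations of `n` -/
lemma sym_sum (n : ℕ) (f : ℕ → ℝ) (hf : ∀ a ≤ n, f (n - a) = f a) :
    ∑ a ∈ range (n + 1), f a = 2 * ∑ a ∈ (range (n + 1)).filter (fun a => 2 * a < n), f a +
      ∑ a ∈ (range (n + 1)).filter (fun a => 2 * a = n), f a := by
  have h1 := Finset.sum_filter_add_sum_filter_not (range (n + 1)) (fun a => 2 * a < n) f
  have h2 := Finset.sum_filter_add_sum_filter_not ((range (n + 1)).filter (fun a => ¬ 2 * a < n))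
    (fun a => 2 * a = n) f
  have h3 : ((range (n + 1)).filter (fun a => ¬ 2 * a < n)).filter (fun a => 2 * a = n) =
      (range (n + 1)).filter (fun a => 2 * a = n) := by
    ext a
    simp only [mem_filter, mem_range]
    omega
  have h4 : ∑ a ∈ ((range (n + 1)).filter (fun a => ¬ 2 * a < n)).filter (fun a => ¬ 2 * a = n), f a =
      ∑ a ∈ (range (n + 1)).filter (fun a => 2 * a < n), f a := by
    refine Finset.sum_nbij' (fun a => n - a) (fun a => n - a) ?_ ?_ ?_ ?_ ?_
    · intro a ha
      simp only [mem_filter, mem_range] at ha ⊢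
      omega
    · intro a ha
      simp only [mem_filter, mem_range] at ha ⊢
      omega
    · intro a ha
      simp only [mem_filter, mem_range] at ha
      omega
    · intro a ha
      simp only [mem_filter, mem_range] at ha
      omega
    · intro a ha
      simp only [mem_filter, mem_range] at ha
      exact (hf a (by omega)).symm
  rw [h3, h4] at h2
  linarith

/-- the middle term -/
lemma mid (n : ℕ) (f : ℕ → ℝ) (h0 : ∀ a, 0 ≤ f a) (h1 : ∀ a, f a ≤ 1) :
    0 ≤ ∑ a ∈ (range (n + 1)).filter (fun a => 2 * a = n), f a ∧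
      ∑ a ∈ (range (n + 1)).filter (fun a => 2 * a = n), f a ≤ 1 := by
  refine ⟨Finset.sum_nonneg fun a _ => h0 a, ?_⟩
  have hc : ((range (n + 1)).filter (fun a => 2 * a = n)).card ≤ 1 := by
    rw [Finset.card_le_one]
    intro a ha b hb
    simp only [mem_filter, mem_range] at ha hb
    omega
  calc ∑ a ∈ (range (n + 1)).filter (fun a => 2 * a = n), f a
      ≤ ∑ _a ∈ (range (n + 1)).filter (fun a => 2 * a = n), (1 : ℝ) :=
        Finset.sum_le_sum fun a _ => h1 a
    _ = (((range (n + 1)).filter (fun a => 2 * a = n)).card : ℝ) := by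
        rw [Finset.sum_const, nsmul_eq_mul, mul_one]
    _ ≤ 1 := by exact_mod_cast hc

/-- the number of the `a` with `2 a < n` -/
lemma half_card (n : ℕ) : ((range (n + 1)).filter (fun a => 2 * a < n)) = range ((n + 1) / 2) := by
  ext a
  simp only [mem_filter, mem_range]
  omega

end Q52.GL
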