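import Pool.Agent.Q120.GL.Stm
import Pool.Agent.Q52.GL.Sym

/-!
# Project GL, job CONC: concentration for all `n`
-/

set_option autoImplicit false

namespace Q52.GL

open Finset Filter Topology MeasureTheory Pool.Agent.Q120.GM Pool.Agent.Q120.CL Pool.Agent.Q120.MG
  Pool.Agent.Q120.HL Pool.Agent.Q120.GL Pool.Agent.Q112.LE

/-- the bound is summable -/
lemma summ_bound : Summable fun n : ℕ => (2 : ℝ) * (2 * 128 ^ 2 / (n : ℝ) ^ ((3 : ℝ) / 2)) := by
  have h := (Real.summable_one_div_nat_rpow (p := (3 : ℝ) / 2)).2 (by norm_num)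
  have h2 := h.mul_left (2 * (2 * 128 ^ 2))
  refine h2.congr fun n => ?_
  ring

lemma exp_bound {x : ℝ} (hx : 0 < x) : Real.exp (-x) ≤ 2 / x ^ 2 := by
  have h1 := Real.quadratic_le_exp_of_nonneg hx.le
  rw [Real.exp_neg, inv_eq_one_div, div_le_div_iff₀ (Real.exp_pos x) (by positivity)]
  nlinarith

theorem t_CONC : J_CONC := by
  classical
  intro Ω _ μ _ p A hA
  set J : ℕ → Finset ℕ := fun n => (range (n + 1)).filter (fun a => 2 * a < n) with hJ
  set G : ℕ → ℕ → Set Ω := fun n a => all A {a, n - a} with hG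
  set ε : ℕ → ℝ := fun n => (n : ℝ) ^ (-(1 / 8) : ℝ) / 4 with hε
  set B : ℕ → Set Ω := fun n => {ω | ε n * (J n).card ≤
    |num (J n) (G n) ω - ∑ a ∈ J n, μ.real (G n a)|} with hB
  have hprob : ∀ n, ∀ a ∈ J n, μ.real (G n a) = p a * p (n - a) := by
    intro n a ha
    rw [hJ] at ha
    simp only [mem_filter, mem_range] at ha
    rw [hG]
    simp only
    rw [real_all hA, Finset.prod_pair (by omega)]
  have hbound : ∀ᶠ n : ℕ in atTop, μ.real (B n) ≤ 2 * (2 * 128 ^ 2 / (n : ℝ) ^ ((3 : ℝ) / 2)) := by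
    filter_upwards [eventually_ge_atTop 1] with n hn
    have hn1 : (1 : ℝ) ≤ n := by exact_mod_cast hn
    have hn0 : (0 : ℝ) < n := by linarith
    have hmut : Mutual μ (J n) (G n) := by
      intro T hT
      refine indep_many hA T (fun a => ({a, n - a} : Set ℕ)) ?_ (G n) ?_
      · intro i hi j hj hij
        have h1 := hT hi
        have h2 := hT hj
        rw [hJ] at h1 h2
        simp only [mem_filter, mem_range] at h1 h2
        rw [Set.disjoint_left]
        intro x hx1 hx2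
        simp only [Set.mem_insert_iff, Set.mem_singleton_iff] at hx1 hx2
        omega
      · intro i _
        exact F_all (fun x hx => by
          simp only [mem_insert, mem_singleton] at hx
          simpa using hx)
    have hε0 : 0 ≤ ε n := by rw [hε]; positivity
    have hε1 : ε n ≤ 1 := by
      rw [hε]
      have : (n : ℝ) ^ (-(1 / 8) : ℝ) ≤ 1 := Real.rpow_le_one_of_one_le_of_nonpos hn1 (by norm_num)
      simp only
      linarith
    have h1 := dev_two (fun j _ => meas_all hA {j, n - j}) hmut hε0 hε1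
    refine h1.trans ?_
    have hcard : (n : ℝ) / 2 ≤ ((J n).card : ℝ) := by
      have h2 : (J n).card = (n + 1) / 2 := by
        rw [hJ]; simp only; rw [half_card, card_range]
      have h3 : n ≤ 2 * (J n).card := by omega
      have h4 : (n : ℝ) ≤ 2 * ((J n).card : ℝ) := by exact_mod_cast h3
      linarith
    set x : ℝ := (n : ℝ) ^ ((3 : ℝ) / 4) / 128 with hx
    have hx0 : 0 < x := by rw [hx]; positivity
    have h5 : x ≤ ε n ^ 2 / 4 * (J n).card := by
      have e1 : ε n ^ 2 = (n : ℝ) ^ (-(1 / 4) : ℝ) / 16 := by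
        rw [hε]
        simp only
        rw [div_pow, ← Real.rpow_natCast, ← Real.rpow_mul hn0.le]
        norm_num
      have e2 : (n : ℝ) ^ ((3 : ℝ) / 4) = (n : ℝ) ^ (-(1 / 4) : ℝ) * n := by
        rw [show ((3 : ℝ) / 4) = -(1 / 4) + 1 by norm_num, Real.rpow_add hn0, Real.rpow_one]
      have e3 : 0 < (n : ℝ) ^ (-(1 / 4) : ℝ) := by positivity
      rw [e1, hx, e2]
      have : (n : ℝ) ^ (-(1 / 4) : ℝ) * (n / 2) ≤ (n : ℝ) ^ (-(1 / 4) : ℝ) * ((J n).card : ℝ) :=
        mul_le_mul_of_nonneg_left hcard e3.le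
      linarith
    have h6 : Real.exp (-(ε n ^ 2 / 4 * (J n).card)) ≤ Real.exp (-x) :=
      Real.exp_le_exp.2 (by linarith)
    have h7 := exp_bound hx0
    have h8 : 2 / x ^ 2 = 2 * 128 ^ 2 / (n : ℝ) ^ ((3 : ℝ) / 2) := by
      have e4 : x ^ 2 = (n : ℝ) ^ ((3 : ℝ) / 2) / 128 ^ 2 := by
        rw [hx, div_pow, ← Real.rpow_natCast ((n : ℝ) ^ ((3 : ℝ) / 4)), ← Real.rpow_mul hn0.le]
        norm_num
      rw [e4]
      field_simp
    rw [h8] at h7
    linarith
  have hae := bc (μ := μ) summ_bound hbound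
  filter_upwards [hae] with ω hω
  filter_upwards [hω, eventually_ge_atTop 3] with n hn hn3
  have hn3' : (3 : ℝ) ≤ n := by exact_mod_cast hn3
  have hn0 : (0 : ℝ) < n := by linarith
  -- the deviation
  have h1 : |num (J n) (G n) ω - ∑ a ∈ J n, μ.real (G n a)| < ε n * (J n).card := by
    by_contra hcon
    exact hn (not_lt.1 hcon)
  -- the number of representations
  set f : ℕ → ℝ := fun a => if a ∈ A ω ∧ n - a ∈ A ω then 1 else 0 with hf
  have h2 : (gold (A ω) n : ℝ) = ∑ a ∈ range (n + 1), f a := by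
    unfold gold
    rw [Finset.card_filter]
    push_cast
    refine Finset.sum_congr rfl fun a _ => ?_
    rw [hf]
  have hf0 : ∀ a, 0 ≤ f a := by
    intro a
    rw [hf]; simp only
    split_ifs
    · exact zero_le_one
    · exact le_rfl
  have hf1 : ∀ a, f a ≤ 1 := by
    intro a
    rw [hf]; simp only
    split_ifs
    · exact le_rfl
    · exact zero_le_one
  have h3 := sym_sum n f (by
    intro a ha
    rw [hf]; simp only
    have e : n - (n - a) = a := by omega
    rw [e]
    exact if_congr and_comm rfl rfl)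
  have h4 := mid n f hf0 hf1
  have h5 : ∑ a ∈ (range (n + 1)).filter (fun a => 2 * a < n), f a = num (J n) (G n) ω := by
    unfold num
    refine Finset.sum_congr rfl fun a _ => ?_
    show (if a ∈ A ω ∧ n - a ∈ A ω then (1 : ℝ) else 0) =
      Set.indicator (all A {a, n - a}) (fun _ => (1 : ℝ)) ω
    unfold Set.indicator
    refine if_congr ?_ rfl rfl
    constructor
    · rintro ⟨h1', h2'⟩ i hi
      rw [mem_insert, mem_singleton] at hi
      rcases hi with rfl | rfl
      · exact h1'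
      · exact h2'
    · intro h
      exact ⟨h a (by simp), h (n - a) (by simp)⟩
  -- the expectation
  have h6 := sym_sum n (fun a => p a * p (n - a)) (by
    intro a ha
    have e : n - (n - a) = a := by omega
    rw [e, mul_comm])
  have h7 := mid n (fun a => p a * p (n - a))
    (fun a => mul_nonneg (p_nonneg hA a) (p_nonneg hA _))
    (fun a => mul_le_one₀ (p_le_one hA a) (p_nonneg hA _) (p_le_one hA _))
  have h8 : ∑ a ∈ (range (n + 1)).filter (fun a => 2 * a < n), p a * p (n - a) =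
      ∑ a ∈ J n, μ.real (G n a) := by
    refine Finset.sum_congr rfl fun a ha => ?_
    exact (hprob n a ha).symm
  have h9 : EG p n = ∑ a ∈ range (n + 1), p a * p (n - a) := rfl
  rw [h5] at h3
  rw [h8] at h6
  have hcard : ((J n).card : ℝ) ≤ (n + 1) / 2 := by
    have e1 : (J n).card = (n + 1) / 2 := by
      rw [hJ]; simp only; rw [half_card, card_range]
    have e2 : 2 * (J n).card ≤ n + 1 := by omega
    have e3 : 2 * ((J n).card : ℝ) ≤ n + 1 := by exact_mod_cast e2
    linarith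
  have h10 : ε n * (J n).card ≤ (n : ℝ) ^ ((7 : ℝ) / 8) / 6 := by
    have e1 : 0 < (n : ℝ) ^ (-(1 / 8) : ℝ) := by positivity
    have e2 : (n : ℝ) ^ ((7 : ℝ) / 8) = (n : ℝ) ^ (-(1 / 8) : ℝ) * n := by
      rw [show ((7 : ℝ) / 8) = -(1 / 8) + 1 by norm_num, Real.rpow_add hn0, Real.rpow_one]
    rw [e2, hε]
    simp only
    calc (n : ℝ) ^ (-(1 / 8) : ℝ) / 4 * ((J n).card : ℝ) ≤
        (n : ℝ) ^ (-(1 / 8) : ℝ) / 4 * ((n + 1) / 2) := by gcongr
      _ ≤ (n : ℝ) ^ (-(1 / 8) : ℝ) * n / 6 := by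
        have : (n : ℝ) ^ (-(1 / 8) : ℝ) * (n + 1) ≤ (n : ℝ) ^ (-(1 / 8) : ℝ) * (4 * n / 3) := by
          apply mul_le_mul_of_nonneg_left _ e1.le
          linarith
        linarith
  have h11 : (2 : ℝ) ≤ (n : ℝ) ^ ((7 : ℝ) / 8) := by
    have e1 : (3 : ℝ) ^ ((7 : ℝ) / 8) ≤ (n : ℝ) ^ ((7 : ℝ) / 8) :=
      Real.rpow_le_rpow (by norm_num) hn3' (by norm_num)
    have e2 : (2 : ℝ) ≤ (3 : ℝ) ^ ((7 : ℝ) / 8) := by
      have e3 : ((3 : ℝ) ^ ((7 : ℝ) / 8)) ^ (8 : ℕ) = 3 ^ (7 : ℕ) := by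
        rw [← Real.rpow_natCast, ← Real.rpow_mul (by norm_num)]
        norm_num
      by_contra hcon
      rw [not_le] at hcon
      have e4 : ((3 : ℝ) ^ ((7 : ℝ) / 8)) ^ (8 : ℕ) < 2 ^ 8 :=
        pow_lt_pow_left₀ hcon (by positivity) (by norm_num)
      rw [e3] at e4
      norm_num at e4
    linarith
  rw [h2, h9, h3, h6]
  rw [abs_lt] at h1
  rw [abs_le]
  constructor
  · linarith [h1.1, h1.2, h4.1, h4.2, h7.1, h7.2]
  · linarith [h1.1, h1.2, h4.1, h4.2, h7.1, h7.2]

end Q52.GL
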