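import Pool.Agent.Q120.GL.Stm
import Pool.Agent.Q52.GL.Sym

/-!
# Project GL, job SUMM: summation over the blocks
-/

set_option autoImplicit false

namespace Q52.GL

open Finset Filter Topology

/-- a nonempty convex set of natural numbers is an interval -/
lemma convex_Ico (S : Finset ℕ) (hS : S.Nonempty)
    (hc : ∀ a ∈ S, ∀ b ∈ S, ∀ x, a ≤ x → x ≤ b → x ∈ S) :
    ∃ lo hi : ℕ, lo ≤ hi ∧ S = Ico lo hi ∧ lo ∈ S ∧ hi - 1 ∈ S ∧ 1 ≤ hi := by
  refine ⟨S.min' hS, S.max' hS + 1, ?_, ?_, S.min'_mem hS, ?_, by omega⟩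
  · have := S.min'_le _ (S.max'_mem hS)
    omega
  · ext x
    rw [mem_Ico]
    constructor
    · intro hx
      have h1 := S.min'_le x hx
      have h2 := S.le_max' x hx
      omega
    · rintro ⟨h1, h2⟩
      exact hc _ (S.min'_mem hS) _ (S.max'_mem hS) x h1 (by omega)
  · rw [Nat.add_sub_cancel]
    exact S.max'_mem hS

/-- the sum over an interval from the sums over the classes -/
lemma blocks (n K y h : ℕ) (g s : ℕ → ℝ) (L κ E : ℝ) (hE : 0 ≤ E)
    (hy : 1 ≤ y) (hh : 2 * h ≤ n + 1) (hn : n < 2 ^ (K + 1))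
    (hfib : ∀ i j lo hi : ℕ, lo ≤ hi → y ≤ lo → 2 * hi ≤ n + 1 →
      (∀ a ∈ Ico lo hi, Nat.log 2 a = i ∧ Nat.log 2 (n - a) = j) →
      |∑ a ∈ Ico lo hi, g a - (hi - lo) * s i / L| ≤ κ * ((hi - lo) * s i / L) + E) :
    |∑ a ∈ Ico y h, g a - ∑ a ∈ Ico y h, s (Nat.log 2 a) / L| ≤
      κ * ∑ a ∈ Ico y h, s (Nat.log 2 a) / L + (K + 1) ^ 2 * E := by
  classical
  set T : Finset (ℕ × ℕ) := range (K + 1) ×ˢ range (K + 1) with hT
  set cl : ℕ → ℕ × ℕ := fun a => (Nat.log 2 a, Nat.log 2 (n - a)) with hcl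
  have hmaps : ∀ a ∈ Ico y h, cl a ∈ T := by
    intro a ha
    rw [mem_Ico] at ha
    rw [hT, mem_product, mem_range, mem_range]
    have h1 : a < 2 ^ (K + 1) := by omega
    have h2 : n - a < 2 ^ (K + 1) := by omega
    exact ⟨Nat.log_lt_of_lt_pow (by omega) h1, Nat.log_lt_of_lt_pow (by omega) h2⟩
  have hs1 := Finset.sum_fiberwise_of_maps_to hmaps g
  have hs2 := Finset.sum_fiberwise_of_maps_to hmaps (fun a => s (Nat.log 2 a) / L)
  have hcell : ∀ c ∈ T, |∑ a ∈ (Ico y h).filter (fun a => cl a = c), g a -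
      ∑ a ∈ (Ico y h).filter (fun a => cl a = c), s (Nat.log 2 a) / L| ≤
      κ * ∑ a ∈ (Ico y h).filter (fun a => cl a = c), s (Nat.log 2 a) / L + E := by
    rintro ⟨i, j⟩ _
    set S := (Ico y h).filter (fun a => cl a = (i, j)) with hS
    have hlog : ∀ a ∈ S, Nat.log 2 a = i ∧ Nat.log 2 (n - a) = j := by
      intro a ha
      have h1 := (mem_filter.1 ha).2
      rw [hcl] at h1
      exact Prod.mk.inj h1
    rcases S.eq_empty_or_nonempty with h0 | hne
    · rw [h0]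
      simp [hE]
    · obtain ⟨lo, hi, hlh, hSI, hlo, hhi, hhi1⟩ := convex_Ico S hne (by
        intro a ha b hb x hax hxb
        have h1 := hlog a ha
        have h2 := hlog b hb
        have h3 := (mem_filter.1 ha).1
        have h4 := (mem_filter.1 hb).1
        rw [mem_Ico] at h3 h4
        rw [hS, mem_filter, mem_Ico]
        refine ⟨⟨by omega, by omega⟩, ?_⟩
        rw [hcl]
        simp only [Prod.mk.injEq]
        constructor
        · have e1 := Nat.log_mono_right (b := 2) hax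
          have e2 := Nat.log_mono_right (b := 2) hxb
          omega
        · have e1 := Nat.log_mono_right (b := 2) (show n - b ≤ n - x by omega)
          have e2 := Nat.log_mono_right (b := 2) (show n - x ≤ n - a by omega)
          omega)
      have hlo' := (mem_filter.1 hlo).1
      have hhi' := (mem_filter.1 hhi).1
      rw [mem_Ico] at hlo' hhi'
      have h1 := hfib i j lo hi hlh hlo'.1 (by omega) (by
        intro a ha
        rw [← hSI] at ha
        exact hlog a ha)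
      have h2 : ∑ a ∈ S, s (Nat.log 2 a) / L = (hi - lo) * s i / L := by
        rw [Finset.sum_congr rfl (fun a ha => by rw [(hlog a ha).1]), Finset.sum_const, hSI,
          Nat.card_Ico, nsmul_eq_mul, Nat.cast_sub hlh]
        ring
      rw [h2]
      rw [hSI]
      exact h1
  rw [← hs1, ← hs2, ← Finset.sum_sub_distrib]
  refine (Finset.abs_sum_le_sum_abs _ _).trans ?_
  refine (Finset.sum_le_sum hcell).trans ?_
  rw [Finset.sum_add_distrib, ← Finset.mul_sum, Finset.sum_const, hT, card_product, card_range,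
    nsmul_eq_mul]
  push_cast
  rw [sq]

/-- the error terms -/
lemma errs (c : ℝ) (hc : 0 < c) : ∀ᶠ K : ℕ in atTop,
    2 * ((K : ℝ) + 1) ^ 2 * ((2 : ℝ) ^ K) ^ ((1 : ℝ) / 2) + 2 * (2 ^ K / (K : ℝ) ^ 4) + 3 ≤
      c * (2 ^ K / ((K : ℝ) + 1) ^ 2) := by
  have hsq : (1 : ℝ) < Real.sqrt 2 := Real.one_lt_sqrt_two
  have t1 : Tendsto (fun K : ℕ => ((K : ℝ) + 1) ^ 4 / Real.sqrt 2 ^ K) atTop (𝓝 0) := by
    have h := ((tendsto_pow_const_div_const_pow_of_one_lt 4 hsq).comp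
      (tendsto_add_atTop_nat 1)).const_mul (Real.sqrt 2)
    rw [mul_zero] at h
    refine h.congr fun K => ?_
    simp only [Function.comp]
    push_cast
    rw [pow_succ (Real.sqrt 2) K]
    have : Real.sqrt 2 ≠ 0 := by positivity
    field_simp
  have t3 : Tendsto (fun K : ℕ => ((K : ℝ) + 1) ^ 2 / 2 ^ K) atTop (𝓝 0) := by
    have h := ((tendsto_pow_const_div_const_pow_of_one_lt 2 (by norm_num : (1 : ℝ) < 2)).comp
      (tendsto_add_atTop_nat 1)).const_mul (2 : ℝ)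
    rw [mul_zero] at h
    refine h.congr fun K => ?_
    simp only [Function.comp]
    push_cast
    rw [pow_succ (2 : ℝ) K]
    field_simp
  have t2 : Tendsto (fun K : ℕ => (8 : ℝ) / (K : ℝ)) atTop (𝓝 0) :=
    tendsto_const_div_atTop_nhds_zero_nat 8
  have h1 := t1.eventually_le_const (show (0 : ℝ) < c / 6 by positivity)
  have h2 := t2.eventually_le_const (show (0 : ℝ) < c / 3 by positivity)
  have h3 := t3.eventually_le_const (show (0 : ℝ) < c / 9 by positivity)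
  filter_upwards [h1, h2, h3, eventually_ge_atTop 1] with K e1 e2 e3 hK
  have hK1 : (1 : ℝ) ≤ K := by exact_mod_cast hK
  have hK0 : (0 : ℝ) < K := by linarith
  have hp : (0 : ℝ) < 2 ^ K := by positivity
  have hq : (0 : ℝ) < ((K : ℝ) + 1) ^ 2 := by positivity
  have hr : ((2 : ℝ) ^ K) ^ ((1 : ℝ) / 2) = Real.sqrt 2 ^ K := by
    rw [← Real.sqrt_eq_rpow, Real.sqrt_eq_rpow, ← Real.rpow_natCast, ← Real.rpow_mul (by norm_num),
      mul_comm, Real.rpow_mul (by norm_num), Real.rpow_natCast, ← Real.sqrt_eq_rpow]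
  have hs2 : Real.sqrt 2 ^ K * Real.sqrt 2 ^ K = 2 ^ K := by
    rw [← mul_pow, Real.mul_self_sqrt (by norm_num)]
  have hs0 : (0 : ℝ) < Real.sqrt 2 ^ K := by positivity
  rw [mul_div_assoc' c, le_div_iff₀ hq, hr]
  -- the three terms
  have f1 : 2 * ((K : ℝ) + 1) ^ 2 * Real.sqrt 2 ^ K * ((K : ℝ) + 1) ^ 2 ≤ c / 3 * 2 ^ K := by
    rw [div_le_iff₀ hs0] at e1
    calc 2 * ((K : ℝ) + 1) ^ 2 * Real.sqrt 2 ^ K * ((K : ℝ) + 1) ^ 2 =
        2 * (((K : ℝ) + 1) ^ 4) * Real.sqrt 2 ^ K := by ring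
      _ ≤ 2 * (c / 6 * Real.sqrt 2 ^ K) * Real.sqrt 2 ^ K := by gcongr
      _ = c / 3 * (Real.sqrt 2 ^ K * Real.sqrt 2 ^ K) := by ring
      _ = _ := by rw [hs2]
  have f2 : 2 * (2 ^ K / (K : ℝ) ^ 4) * ((K : ℝ) + 1) ^ 2 ≤ c / 3 * 2 ^ K := by
    have g1 : ((K : ℝ) + 1) ^ 2 / (K : ℝ) ^ 4 ≤ 4 / K := by
      rw [div_le_div_iff₀ (by positivity) hK0]
      nlinarith [pow_pos hK0 2, pow_pos hK0 3, mul_nonneg hK0.le (sub_nonneg.2 hK1),
        mul_nonneg (pow_pos hK0 3).le (sub_nonneg.2 hK1), mul_nonneg (pow_pos hK0 2).le (sub_nonneg.2 hK1)]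
    calc 2 * (2 ^ K / (K : ℝ) ^ 4) * ((K : ℝ) + 1) ^ 2 =
        2 * (2 : ℝ) ^ K * (((K : ℝ) + 1) ^ 2 / (K : ℝ) ^ 4) := by ring
      _ ≤ 2 * (2 : ℝ) ^ K * (4 / (K : ℝ)) := mul_le_mul_of_nonneg_left g1 (by positivity)
      _ = (2 : ℝ) ^ K * (8 / (K : ℝ)) := by ring
      _ ≤ (2 : ℝ) ^ K * (c / 3) := mul_le_mul_of_nonneg_left e2 hp.le
      _ = _ := by ring
  have f3 : 3 * ((K : ℝ) + 1) ^ 2 ≤ c / 3 * 2 ^ K := by
    rw [div_le_iff₀ hp] at e3
    linarith
  calc (2 * ((K : ℝ) + 1) ^ 2 * Real.sqrt 2 ^ K + 2 * (2 ^ K / (K : ℝ) ^ 4) + 3) * ((K : ℝ) + 1) ^ 2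
      = 2 * ((K : ℝ) + 1) ^ 2 * Real.sqrt 2 ^ K * ((K : ℝ) + 1) ^ 2 +
        2 * (2 ^ K / (K : ℝ) ^ 4) * ((K : ℝ) + 1) ^ 2 + 3 * ((K : ℝ) + 1) ^ 2 := by ring
    _ ≤ c / 3 * 2 ^ K + c / 3 * 2 ^ K + c / 3 * 2 ^ K := by linarith
    _ = c * 2 ^ K := by ring

open Pool.Agent.Q120.GM Pool.Agent.Q120.CL Pool.Agent.Q120.MG Pool.Agent.Q120.HL Pool.Agent.Q120.GL

theorem t_SUMM : J_SUMM := by
  classical
  intro z hfib η κ hη hκ hκ1
  have hκ8 : (0 : ℝ) < κ / 8 := by positivity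
  have ev1 := hfib (κ / 8) hκ8 (by linarith)
  have ev2 := errs (κ / 4 * η) (by positivity)
  -- `K ^ 4 ≤ 2 ^ (K / 2)`
  have ev3 : ∀ᶠ K : ℕ in atTop, K ^ 4 ≤ 2 ^ (K / 2) := by
    have h := (tendsto_pow_const_div_const_pow_of_one_lt 4
      Real.one_lt_sqrt_two).eventually_le_const (show (0 : ℝ) < 1 / 2 by norm_num)
    filter_upwards [h] with K hK
    have hs0 : (0 : ℝ) < Real.sqrt 2 ^ K := by positivity
    rw [div_le_iff₀ hs0] at hK
    have h1 : Real.sqrt 2 ^ K ≤ 2 * 2 ^ (K / 2) := by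
      have h2 : Real.sqrt 2 ^ K ≤ Real.sqrt 2 ^ (2 * (K / 2) + 1) :=
        pow_le_pow_right₀ Real.one_lt_sqrt_two.le (by omega)
      rw [pow_succ, pow_mul, Real.sq_sqrt (by norm_num)] at h2
      have h3 : Real.sqrt 2 ≤ 2 := by
        rw [Real.sqrt_le_left (by norm_num)]; norm_num
      calc Real.sqrt 2 ^ K ≤ 2 ^ (K / 2) * Real.sqrt 2 := h2
        _ ≤ 2 ^ (K / 2) * 2 := by gcongr
        _ = _ := by ring
    have h4 : (K : ℝ) ^ 4 ≤ 2 ^ (K / 2) := by linarith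
    exact_mod_cast h4
  have ev4 : ∀ᶠ K : ℕ in atTop, (16 : ℝ) / κ ≤ 2 ^ K := by
    have h := tendsto_pow_atTop_atTop_of_one_lt (show (1 : ℝ) < 2 by norm_num)
    exact h.eventually_ge_atTop _
  have ev5 : ∀ᶠ K : ℕ in atTop, (16 : ℝ) / κ ≤ (K : ℝ) ^ 4 := by
    have h := tendsto_pow_atTop (α := ℝ) (n := 4) (by norm_num)
    exact (h.comp tendsto_natCast_atTop_atTop).eventually_ge_atTop _
  filter_upwards [ev1, ev2, ev3, ev4, ev5, eventually_ge_atTop 4] with K hf he h3 h4 h5 hK n hn1 hn2 G hG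
  have hG0 : 0 < G := lt_of_lt_of_le hη hG
  have hK1 : (1 : ℝ) ≤ K := by exact_mod_cast (by omega : 1 ≤ K)
  have hK0 : (0 : ℝ) < K := by linarith
  have hp : (0 : ℝ) < 2 ^ K := by positivity
  have hn1' : (2 : ℝ) ^ K ≤ n := by exact_mod_cast hn1
  have hn0 : (0 : ℝ) < n := by linarith
  set L : ℝ := Real.log n ^ 2 with hLd
  obtain ⟨-, hl1, hl2⟩ := log_block hn1 hn2
  have hl20 : 0 < Real.log 2 := Real.log_pos (by norm_num)
  have hl21 : Real.log 2 ≤ 1 := by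
    have := Real.log_two_lt_d9
    linarith
  have hlog0 : 0 < Real.log n := lt_of_lt_of_le (by positivity) hl1
  have hL0 : 0 < L := by rw [hLd]; positivity
  have hLK : L ≤ ((K : ℝ) + 1) ^ 2 := by
    rw [hLd]
    apply pow_le_pow_left₀ hlog0.le
    refine hl2.trans ?_
    have : (0 : ℝ) ≤ (K : ℝ) + 1 := by positivity
    nlinarith
  -- the cut
  set y : ℕ := ⌈(2 : ℝ) ^ K / (K : ℝ) ^ 4⌉₊ with hyd
  have hy1 : (2 : ℝ) ^ K / (K : ℝ) ^ 4 ≤ y := Nat.le_ceil _
  have hy2 : (y : ℝ) < (2 : ℝ) ^ K / (K : ℝ) ^ 4 + 1 := Nat.ceil_lt_add_one (by positivity)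
  have hyK : 2 ^ K ≤ y * K ^ 4 := by
    rw [div_le_iff₀ (by positivity)] at hy1
    exact_mod_cast hy1
  have hy0 : 1 ≤ y := by
    rcases Nat.eq_zero_or_pos y with h | h
    · rw [h, zero_mul] at hyK
      have : 0 < 2 ^ K := by positivity
      omega
    · exact h
  set h : ℕ := (n + 1) / 2 with hhd
  have hyh : y ≤ h := by
    have e1 : (16 : ℝ) ≤ (K : ℝ) ^ 4 := by
      have e2 : (16 : ℝ) ≤ 16 / κ := by
        rw [le_div_iff₀ hκ]; linarith
      linarith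
    have e3 : (2 : ℝ) ^ K / (K : ℝ) ^ 4 ≤ 2 ^ K / 16 := by
      apply div_le_div_of_nonneg_left hp.le (by norm_num) e1
    have e4 : (n : ℝ) ≤ 2 * h := by
      have : n ≤ 2 * h := by omega
      exact_mod_cast this
    have e5 : (16 : ℝ) ≤ 2 ^ K := by
      have e2 : (16 : ℝ) ≤ 16 / κ := by
        rw [le_div_iff₀ hκ]; linarith
      linarith
    have e6 : (y : ℝ) ≤ h := by linarith
    exact_mod_cast e6
  have hK2 : ∀ a, y ≤ a → K ≤ 2 * Nat.log 2 a := by
    intro a ha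
    have e1 : 2 ^ K ≤ a * 2 ^ (K / 2) :=
      hyK.trans (Nat.mul_le_mul ha h3)
    have e2 : 2 ^ (K - K / 2) ≤ a := by
      have e3 : 2 ^ K = 2 ^ (K - K / 2) * 2 ^ (K / 2) := by
        rw [← pow_add]; congr 1; omega
      rw [e3] at e1
      exact Nat.le_of_mul_le_mul_right e1 (by positivity)
    have e3 := (Nat.le_log_iff_pow_le (by norm_num) (by omega : a ≠ 0)).2 e2
    omega
  have hKle : ∀ a, a < h → Nat.log 2 a ≤ K := by
    intro a ha
    have e1 : a < 2 ^ (K + 1) := by omega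
    have := Nat.log_lt_of_lt_pow' (b := 2) (x := K + 1) (y := a) (by omega) e1
    omega
  -- the pieces
  set g : ℕ → ℝ := fun a => pr z a * pr z (n - a) with hg
  have hg0 : ∀ a, 0 ≤ g a := fun a => mul_nonneg (pr_nonneg z a) (pr_nonneg z _)
  have hg1 : ∀ a, g a ≤ 1 := fun a => mul_le_one₀ (pr_le_one z a) (pr_nonneg z _) (pr_le_one z _)
  have hsym := sym_sum n g (by
    intro a ha
    rw [hg]
    have e : n - (n - a) = a := by omega
    show pr z (n - a) * pr z (n - (n - a)) = pr z a * pr z (n - a)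
    rw [e, mul_comm])
  have hmid := mid n g hg0 hg1
  have hEG : EG (pr z) n = ∑ a ∈ range (n + 1), g a := rfl
  have hhalf : ∑ a ∈ (range (n + 1)).filter (fun a => 2 * a < n), g a =
      ∑ a ∈ range y, g a + ∑ a ∈ Ico y h, g a := by
    rw [half_card, ← hhd, Finset.sum_range_add_sum_Ico _ hyh]
  have hfst0 : 0 ≤ ∑ a ∈ range y, g a := Finset.sum_nonneg fun a _ => hg0 a
  have hfst1 : ∑ a ∈ range y, g a ≤ y := by
    calc ∑ a ∈ range y, g a ≤ ∑ _a ∈ range y, (1 : ℝ) := Finset.sum_le_sum fun a _ => hg1 a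
      _ = y := by rw [Finset.sum_const, card_range, nsmul_eq_mul, mul_one]
  set s : ℕ → ℝ := fun i => Sz {0, n} (z i) with hs
  set E : ℝ := ((2 : ℝ) ^ K) ^ ((1 : ℝ) / 2) with hE
  have hE0 : 0 ≤ E := by rw [hE]; positivity
  have hb := blocks n K y h g s L (κ / 8) E hE0 hy0 (by omega) hn2 (by
    intro i j lo hi e1 e2 e3 e4
    exact hf n hn1 hn2 i j lo hi e1 (hyK.trans (Nat.mul_le_mul_right _ e2)) e3 e4)
  rw [abs_le] at hb
  obtain ⟨hb1, hb2⟩ := hb
  -- the main term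
  set Q : ℝ := G * n / L with hQ
  have hQ0 : 0 < Q := by rw [hQ]; positivity
  have hQe : 2 * ((K : ℝ) + 1) ^ 2 * E + 2 * (2 ^ K / (K : ℝ) ^ 4) + 3 ≤ κ / 4 * Q := by
    refine he.trans ?_
    have e1 : η * (2 ^ K / ((K : ℝ) + 1) ^ 2) ≤ Q := by
      rw [hQ, mul_div_assoc]
      have e2 : (2 : ℝ) ^ K / ((K : ℝ) + 1) ^ 2 ≤ n / L := by
        apply div_le_div₀ hn0.le hn1' hL0 hLK
      exact mul_le_mul hG e2 (by positivity) hG0.le
    calc κ / 4 * η * (2 ^ K / ((K : ℝ) + 1) ^ 2) = κ / 4 * (η * (2 ^ K / ((K : ℝ) + 1) ^ 2)) := by ring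
      _ ≤ κ / 4 * Q := by gcongr
  have hcardIco : ((Ico y h).card : ℝ) = (h : ℝ) - y := by
    rw [Nat.card_Ico, Nat.cast_sub hyh]
  have hh1 : 2 * (h : ℝ) ≤ n + 1 := by
    have : 2 * h ≤ n + 1 := by omega
    exact_mod_cast this
  have hh2 : (n : ℝ) ≤ 2 * h := by
    have : n ≤ 2 * h := by omega
    exact_mod_cast this
  have hyr : (0 : ℝ) ≤ y := Nat.cast_nonneg _
  have hyhr : (y : ℝ) ≤ h := by exact_mod_cast hyh
  have hGL : 0 < G / L := by positivity
  have hQn : Q = G / L * n := by rw [hQ]; ring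
  constructor
  · intro hup
    have hs1 : ∑ a ∈ Ico y h, s (Nat.log 2 a) / L ≤ (h - y) * (G / L) := by
      calc ∑ a ∈ Ico y h, s (Nat.log 2 a) / L ≤ ∑ _a ∈ Ico y h, G / L := by
            apply Finset.sum_le_sum
            intro a ha
            rw [mem_Ico] at ha
            exact div_le_div_of_nonneg_right (hup _ (hK2 a ha.1) (hKle a ha.2)) hL0.le
        _ = (h - y) * (G / L) := by rw [Finset.sum_const, nsmul_eq_mul, hcardIco]
    have e1 : ∑ a ∈ Ico y h, g a ≤ (1 + κ / 8) * ((h - y) * (G / L)) + (K + 1) ^ 2 * E := by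
      have : (1 + κ / 8) * ∑ a ∈ Ico y h, s (Nat.log 2 a) / L ≤ (1 + κ / 8) * ((h - y) * (G / L)) :=
        mul_le_mul_of_nonneg_left hs1 (by positivity)
      linarith
    have e2 : 2 * ((1 + κ / 8) * ((h - y) * (G / L))) ≤ (1 + κ / 8) * (Q + G / L) := by
      rw [hQn]
      have : 2 * ((h : ℝ) - y) ≤ n + 1 := by linarith
      have e3 : 2 * ((h : ℝ) - y) * (G / L) ≤ (n + 1) * (G / L) :=
        mul_le_mul_of_nonneg_right this hGL.le
      calc 2 * ((1 + κ / 8) * ((h - y) * (G / L))) = (1 + κ / 8) * (2 * ((h : ℝ) - y) * (G / L)) := by ring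
        _ ≤ (1 + κ / 8) * ((n + 1) * (G / L)) := mul_le_mul_of_nonneg_left e3 (by positivity)
        _ = _ := by ring
    have e4 : (1 + κ / 8) * (G / L) ≤ κ / 4 * Q := by
      have e5 : 8 / κ ≤ n := by
        have : 8 / κ ≤ 16 / κ := by gcongr; norm_num
        linarith
      have e6 : 8 ≤ κ * n := by
        rw [div_le_iff₀ hκ] at e5
        linarith
      rw [hQn]
      have e7 : (1 + κ / 8) ≤ κ / 4 * n := by linarith
      calc (1 + κ / 8) * (G / L) ≤ (κ / 4 * n) * (G / L) := mul_le_mul_of_nonneg_right e7 hGL.le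
        _ = _ := by ring
    rw [hEG, hsym, hhalf]
    have e8 : (1 + κ) * (G * n / L) = (1 + κ) * Q := rfl
    rw [e8]
    have e9 : (0 : ℝ) ≤ κ * Q := by positivity
    linarith [hmid.2]
  · intro hlow
    have hs1 : (h - y) * (G / L) ≤ ∑ a ∈ Ico y h, s (Nat.log 2 a) / L := by
      calc (h - y) * (G / L) = ∑ _a ∈ Ico y h, G / L := by
            rw [Finset.sum_const, nsmul_eq_mul, hcardIco]
        _ ≤ ∑ a ∈ Ico y h, s (Nat.log 2 a) / L := by
            apply Finset.sum_le_sum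
            intro a ha
            rw [mem_Ico] at ha
            exact div_le_div_of_nonneg_right (hlow _ (hK2 a ha.1) (hKle a ha.2)) hL0.le
    have e1 : (1 - κ / 8) * ((h - y) * (G / L)) - (K + 1) ^ 2 * E ≤ ∑ a ∈ Ico y h, g a := by
      have : (1 - κ / 8) * ((h - y) * (G / L)) ≤ (1 - κ / 8) * ∑ a ∈ Ico y h, s (Nat.log 2 a) / L :=
        mul_le_mul_of_nonneg_left hs1 (by linarith)
      linarith
    have e2 : (1 - κ / 8) * Q - κ / 4 * Q ≤ 2 * ((1 - κ / 8) * ((h - y) * (G / L))) := by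
      have e3 : (n : ℝ) - κ / 4 * n ≤ 2 * ((h : ℝ) - y) := by
        have f1 : 2 * (y : ℝ) ≤ κ / 4 * n := by
          have f2 : 2 * ((2 : ℝ) ^ K / (K : ℝ) ^ 4) ≤ κ / 8 * n := by
            have f3 : (2 : ℝ) ^ K / (K : ℝ) ^ 4 ≤ n * (κ / 16) := by
              rw [div_le_iff₀ (by positivity)]
              rw [div_le_iff₀ hκ] at h5
              calc (2 : ℝ) ^ K ≤ n := hn1'
                _ = n * 1 := by ring
                _ ≤ n * ((K : ℝ) ^ 4 * κ / 16) := by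
                    apply mul_le_mul_of_nonneg_left _ hn0.le
                    linarith
                _ = n * (κ / 16) * (K : ℝ) ^ 4 := by ring
            linarith
          have f4 : (2 : ℝ) ≤ κ / 8 * n := by
            rw [div_le_iff₀ hκ] at h4
            nlinarith
          linarith
        linarith
      have e4 : ((n : ℝ) - κ / 4 * n) * (G / L) ≤ 2 * ((h : ℝ) - y) * (G / L) :=
        mul_le_mul_of_nonneg_right e3 hGL.le
      calc (1 - κ / 8) * Q - κ / 4 * Q ≤ (1 - κ / 8) * (Q - κ / 4 * Q) := by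
            have : 0 ≤ κ / 8 * (κ / 4 * Q) := by positivity
            linarith
        _ = (1 - κ / 8) * (((n : ℝ) - κ / 4 * n) * (G / L)) := by rw [hQn]; ring
        _ ≤ (1 - κ / 8) * (2 * ((h : ℝ) - y) * (G / L)) :=
            mul_le_mul_of_nonneg_left e4 (by linarith)
        _ = _ := by ring
    rw [hEG, hsym, hhalf]
    have e8 : (1 - κ) * (G * n / L) = (1 - κ) * Q := rfl
    rw [e8]
    have e9 : (0 : ℝ) ≤ κ * Q := by positivity
    have e10 : 0 ≤ 2 * ((2 : ℝ) ^ K / (K : ℝ) ^ 4) := by positivity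
    linarith [hmid.1]

end Q52.GL
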